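import Pool.Agent.Lib.MP_bc213e_ag.KL.G.Su
import Pool.Agent.Lib.MP_bc213e_ag.KL.T.Main
import Pool.Agent.Lib.MP_bc213e_ag.OW.G.Val
import Pool.Agent.Lib.MP_bc213e_ag.OW.G.Shift

/-! The theorem on fibres along which `L` is torsion, for klt pairs. -/

namespace Pool.Agent.Lib.MP_bc213e_ag.OW

open Pool.Agent.Lib.MP_bc213e_ag.Hyp Pool.Agent.Lib.MP_bc213e_ag.KBB WithZero Filter

theorem fibres_klt {K : Type} [Field K] [Algebra ℂ K] {N n m ν j : ℕ} (hm : 0 < m)
    (x : Fin (N + 1) → Kˣ)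
    (normal : ∀ i, IsFractionRing (chart x i) K ∧ IsIntegrallyClosed (chart x i))
    (τ : Fin n → K) (hτ : IsTranscendenceBasis ℂ τ) (D : Fin n → Derivation ℂ K K)
    (hD : ∀ a b, D a (τ b) = if a = b then 1 else 0)
    (KX : Prm x →₀ ℤ) (canonical : IsCanonical D KX) (Δ : Prm x →₀ ℚ) (effective : 0 ≤ Δ)
    (L : Prm x →₀ ℤ) (hL : ∀ w, (L w : ℚ) = m * (KX w + Δ w))
    (cartier : IsCartier L) (nef : IsNef L)
    (klt : ∀ (O : Subalgebra ℂ K) (F : Type) [Field F] [Algebra ℂ F] (ρ : O →ₐ[ℂ] F),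
      IsPoint x O → Function.Surjective ρ → ((ν + j : ℕ) : Cardinal) < Algebra.trdeg ℂ F →
        KltAt D m L O)
    (H : Prm x →₀ ℤ)
    (hyperplane : ∀ i (w : Prm x), PrimeDiv (chart x i) w.1 → H w = ord w.1 ((x 0 : K) / x i))
    (P : Polynomial (Polynomial ℚ))
    (euler : ∀ t a : ℕ, (chi (Sect (t • L + a • H)) : ℚ) =
      (P.eval (Polynomial.C (t : ℚ))).eval (a : ℚ))
    (deg : P.natDegree ≤ ν) (order : ¬ Polynomial.X ^ (j + 1) ∣ P.coeff ν) :
    ∃ (k : IntermediateField ℂ K) (M : ℕ) (θ : Kˣ), Algebra.trdeg ℂ k ≤ (ν + j : ℕ) ∧ 0 < M ∧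
      ∀ (V : ValuationSubring K) (O : Subalgebra ℂ K) (f : Kˣ), (∀ c ∈ k, c ∈ V) →
        IsPoint x O → (∀ r ∈ O, r ∈ V) → LocEq L O f →
          V.valuation ((θ : K) * (f : K) ^ M) = 1 := by
  obtain ⟨κ, _, ⟨E⟩⟩ := exists_emb normal cartier
  have : Nonempty κ := ⟨E.k₀⟩
  have hk : (E.k : ℚ) ≠ 0 := Nat.cast_ne_zero.2 E.kpos.ne'
  have h1 : Tendsto (fun a : ℕ => E.k * a) atTop atTop :=
    tendsto_atTop_mono (fun a => Nat.le_mul_of_pos_left a E.kpos) tendsto_id
  obtain ⟨S, s1, s2, s3, s4⟩ := E.exists_su hm normal hτ hD canonical effective hL nef klt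
  obtain ⟨k, M, θ, k1, k2, k3⟩ := S.torsionk (ν := ν) (j := j)
    (P := P.map (Polynomial.compRingHom (Polynomial.C (E.k : ℚ) * Polynomial.X))) s3 s4
    (Polynomial.natDegree_map_le.trans deg) (fun h => order (by
      rw [Polynomial.coeff_map, Polynomial.coe_compRingHom_apply, Polynomial.X_pow_dvd_iff] at h
      refine Polynomial.X_pow_dvd_iff.2 fun d hd => ?_
      have h2 := h d hd
      rw [Polynomial.comp_C_mul_X_coeff] at h2
      exact (mul_eq_zero.1 h2).resolve_right (pow_ne_zero d hk)))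
    (fun t => by
      filter_upwards [h1.eventually (chi_shift normal hyperplane (t • L))] with a ha
      have e : Polynomial.C (t : ℚ) = Polynomial.compRingHom
          (Polynomial.C (E.k : ℚ) * Polynomial.X) (Polynomial.C (t : ℚ)) := by
        rw [Polynomial.coe_compRingHom_apply, Polynomial.C_comp]
      change _ = (Polynomial.eval (Polynomial.C (t : ℚ)) _).eval (a : ℚ)
      rw [s1, s2, E.finrank_eq, ha, euler, e, Polynomial.eval_map, Polynomial.eval₂_at_apply,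
        Polynomial.coe_compRingHom_apply, Polynomial.coe_compRingHom_apply, Polynomial.C_comp,
        Polynomial.eval_comp]
      simp)
  rw [s1, s2] at k3
  have h0 : θ ≠ 0 := fun e => by
    have h2 := k3 E.k₀ ⊤ (fun _ _ => trivial) fun _ _ => trivial
    rw [e, map_zero] at h2
    exact pow_ne_zero M (Units.ne_zero _) ((map_eq_zero _).1 h2.symm)
  refine ⟨k, M, Units.mk0 θ h0, k1, k2, fun V O f hV hO hO' hf => ?_⟩
  obtain ⟨a, ha⟩ := exists_chart_le E.x' V fun c => hV _ (k.algebraMap_mem c)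
  rw [Units.val_mk0, map_mul, k3 a V hV ha, ← map_mul, ← mul_pow, map_pow,
    E.val_eq normal V ha hO hO' hf, one_pow]

end Pool.Agent.Lib.MP_bc213e_ag.OW
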