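import Pool.Agent.Lib.MP_bc213e_ag.OW.A.Klt
import Pool.Agent.Lib.MP_bc213e_ag.KL.P.Res
import Pool.Agent.Lib.MP_bc213e_ag.TCI.Der1
import Pool.Agent.Lib.MP_bc213e_ag.DA.Der

/-! The generic point. -/

namespace Pool.Agent.Lib.MP_bc213e_ag.OW

open Pool.Agent.Lib.MP_bc213e_ag.Hyp WithZero

variable {K ι : Type} [Field K] [Algebra ℂ K] {x : ι → Kˣ} {n : ℕ}

theorem eq_bot_of_trdeg {A : Subalgebra ℂ K} (hn : Algebra.trdeg ℂ K = n) (p : Ideal A)
    [p.IsPrime] (h : ((n - 1 : ℕ) : Cardinal) < Algebra.trdeg ℂ (A ⧸ p)) : p = ⊥ := by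
  refine (Submodule.eq_bot_iff _).2 fun f hf => by_contra fun h0 => ?_
  obtain ⟨s, y, hy⟩ := exists_isTranscendenceBasis' ℂ (A ⧸ p)
  choose u hu using fun i => Ideal.Quotient.mkₐ_surjective ℂ p (y i)
  have e : Ideal.Quotient.mkₐ ℂ p ∘ u = y := funext hu
  have h1 : AlgebraicIndependent ℂ u := .of_comp (Ideal.Quotient.mkₐ ℂ p) (e ▸ hy.1)
  have h2 : Transcendental (Algebra.adjoin ℂ (Set.range u)) f := fun a => by
    obtain ⟨⟨r, hr⟩, r0, hd⟩ := a.exists_nonzero_dvd (mem_nonZeroDivisors_of_ne_zero h0)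
    rw [Algebra.adjoin_range_eq_range_aeval] at hr
    obtain ⟨Q, rfl⟩ := hr
    have h3 : MvPolynomial.aeval y Q = 0 := by
      rw [← e, Function.comp_def, ← MvPolynomial.comp_aeval_apply]
      exact Ideal.Quotient.eq_zero_iff_mem.2 (p.mem_of_dvd hd hf)
    obtain rfl := (injective_iff_map_eq_zero _).1 hy.1 Q h3
    exact r0 (Subtype.ext (map_zero _))
  have h3 := ((AlgebraicIndependent.option_iff.2 ⟨h1, h2⟩).cardinalMk_le_trdeg.trans
    (trdeg_le_of_injective A.val Subtype.val_injective)).trans_eq hn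
  rw [← hy.cardinalMk_eq_trdeg] at h
  rw [Cardinal.mk_option] at h3
  obtain ⟨k, hk⟩ := Cardinal.lt_aleph0.1
    ((le_self_add.trans h3).trans_lt Cardinal.natCast_lt_aleph0)
  rw [hk] at h h3
  norm_cast at h h3
  omega

theorem logSmooth_gen {A : Subalgebra ℂ K} [IsFractionRing A K] {τ : Fin n → K}
    (hτ : IsTranscendenceBasis ℂ τ) {m : ℕ} (hm : 0 < m) (Δ : Prm x →₀ ℚ) (p : Ideal A)
    [p.IsPrime] (h : ((n - 1 : ℕ) : Cardinal) < Algebra.trdeg ℂ (A ⧸ p)) :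
    LogSmoothKlt n m Δ (locAt A p) := by
  have hp := eq_bot_of_trdeg (by rw [← hτ.cardinalMk_eq_trdeg, Cardinal.mk_fin]) p h
  have hO : ∀ z, z ∈ locAt A p := fun z => by
    obtain ⟨a, b, hb, rfl⟩ := IsFractionRing.div_surjective (A := A) z
    have h1 := nonZeroDivisors.ne_zero hb
    refine ⟨b, fun e => h1 ((Submodule.eq_bot_iff _).1 hp b e), ?_⟩
    have h2 : (b : K) ≠ 0 := fun e => h1 (Subtype.ext e)
    exact (mul_div_cancel₀ (a : K) h2).symm ▸ a.2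
  let e : locAt A p ≃ₐ[ℂ] K := .ofBijective (locAt A p).val
    ⟨Subtype.val_injective, fun z => ⟨⟨z, hO z⟩, rfl⟩⟩
  refine ⟨e.symm ∘ τ, fun _ => 0, fun _ => hm, ?_, fun w ⟨⟨π, h1⟩, h2, _⟩ => ?_⟩
  · let _ : Field (locAt A p) := (e.toMulEquiv.isField (Field.toIsField K)).toField
    obtain ⟨b, hb⟩ := TCI.exists_kaehler_basis _ (e.symm.isTranscendenceBasis hτ)
    exact (congrArg (fun c => Submodule.span _ (Set.range c)) (funext hb)).symm.trans b.span_eq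
  · have h3 := h2 _ (hO π⁻¹)
    rw [map_inv₀, h1, ← exp_neg, ← exp_zero, exp_le_exp] at h3
    omega

end Pool.Agent.Lib.MP_bc213e_ag.OW
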