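import Pool.Agent.Lib.MP_bc213e_ag.OW.A.Loc
import Pool.Agent.Lib.MP_bc213e_ag.KL.P.Jsp
import Pool.Agent.Lib.MP_bc213e_ag.KL.Defs

/-! The order of a rational form along a divisorial valuation. -/

namespace Pool.Agent.Lib.MP_bc213e_ag.OW

open Pool.Agent.Lib.MP_bc213e_ag.Hyp WithZero

variable {K : Type} [Field K] [Algebra ℂ K] {n : ℕ}

/-- Sketch: `Int.exists_least_of_bdd`. Nonempty: `u b = τ b` or `(τ b)⁻¹`, the Jacobian matrix is
diagonal. Bounded below: `KL.exists_max_Jac` (file `KL/P/Jsp`) with the generators of `A` and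
`w.valuationSubring`, or directly: there is `c` with `w (D a f) ≤ c` for all `f` with `w f ≤ 1`. -/
theorem exists_least {A : Subalgebra ℂ K} (hA : A.FG) {w : ZVal K} (hw : PrimeDiv A w)
    {τ : Fin n → K} {D : Fin n → Derivation ℂ K K}
    (hD : ∀ a b, D a (τ b) = if a = b then 1 else 0) : ∃ k : ℤ,
      IsLeast {l : ℤ | ∃ u : Fin n → K, (∀ b, w (u b) ≤ 1) ∧ jac D u ≠ 0 ∧ ord w (jac D u) = l}
        (-k) := by
  obtain ⟨T, rfl⟩ := hA
  have e : Set.range (Subtype.val : T → K) = T := Subtype.range_coe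
  have h1 : DC.Jac D τ ≠ 0 := by
    rw [DC.Jac, show (Matrix.of fun a b => D a (τ b)) = 1 from Matrix.ext fun a b => by
      rw [Matrix.of_apply, hD, Matrix.one_apply], Matrix.det_one]
    exact one_ne_zero
  obtain ⟨s, h2, -, h3⟩ := KL.exists_max_Jac D (Subtype.val : T → K) w.valuationSubring
    (by rw [e]; exact hw.2.1) (fun f hf => by
      obtain ⟨b, hb, b1, h⟩ := hw.2.2 f hf
      rw [e]
      refine ⟨b, hb, fun h0 => ?_, ?_, h⟩
      · rw [h0, map_zero] at b1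
        exact zero_ne_one b1
      · rw [Valuation.mem_valuationSubring_iff, map_inv₀, b1, inv_one]) h1
  refine ⟨-ord w (jac D (Subtype.val ∘ s)), ⟨Subtype.val ∘ s, fun b =>
    hw.2.1 _ (Algebra.subset_adjoin (s b).2), h2, (neg_neg _).symm⟩, ?_⟩
  rintro _ ⟨u, hu, h4, rfl⟩
  rw [neg_neg, le_ord_iff w h4, ← (ord_eq_iff w (f := jac D (Subtype.val ∘ s)) h2 _).1 rfl]
  exact (w.isEquiv_valuation_valuationSubring _ _).2 (h3 u hu)

end Pool.Agent.Lib.MP_bc213e_ag.OW
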