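import Pool.Agent.Lib.MP_bc213e_ag.KL.G.Gen
import Pool.Agent.Lib.MP_bc213e_ag.KL.G.Least
import Pool.Agent.Lib.MP_bc213e_ag.VK.Defs
import Pool.Agent.Lib.MP_bc213e_ag.VK.LD
import Pool.Agent.Lib.MP_bc213e_ag.OW.F.Common

/-! The data on the charts of an embedding. -/

namespace Pool.Agent.Lib.MP_bc213e_ag.OW

open Pool.Agent.Lib.MP_bc213e_ag.Hyp Pool.Agent.Lib.MP_bc213e_ag.KBB WithZero Filter

theorem Emb.exists_su {K κ : Type} [Field K] [Algebra ℂ K] [Fintype κ] {N n m d : ℕ} (hm : 0 < m)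
    {x : Fin (N + 1) → Kˣ}
    (normal : ∀ i, IsFractionRing (chart x i) K ∧ IsIntegrallyClosed (chart x i))
    {τ : Fin n → K} (hτ : IsTranscendenceBasis ℂ τ) {D : Fin n → Derivation ℂ K K}
    (hD : ∀ a b, D a (τ b) = if a = b then 1 else 0)
    {KX : Prm x →₀ ℤ} (canonical : IsCanonical D KX) {Δ : Prm x →₀ ℚ} (effective : 0 ≤ Δ)
    {L : Prm x →₀ ℤ} (hL : ∀ w, (L w : ℚ) = m * (KX w + Δ w)) (nef : IsNef L)
    (klt : ∀ (O : Subalgebra ℂ K) (F : Type) [Field F] [Algebra ℂ F] (ρ : O →ₐ[ℂ] F),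
      IsPoint x O → Function.Surjective ρ → (d : Cardinal) < Algebra.trdeg ℂ F → KltAt D m L O)
    (E : Emb L κ) : ∃ S : DD.Su K (RatFunc K) κ n, S.x = E.x' ∧ S.g = E.g' ∧ S.d₀ = n - 1 ∧
      S.VK d := by
  refine ⟨⟨E.x', E.g', E.k₀, E.one, fun a => (E.normal normal a).1, fun a => (E.normal normal a).2,
    τ, hτ, D, hD, m, hm.ne', E.effective normal canonical effective hL, n - 1, fun a q hq h => ?_,
    E.cart, E.nef (fun i => (normal i).1) nef, RatFunc.X, RatFunc.transcendental_X,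
    RatFunc.adjoin_X⟩, rfl, rfl, rfl, fun a p hp h3 A w hA hw h1 h2 => ?_⟩
  · have := (E.normal normal a).1
    exact E.sncKlt normal hD canonical hL a q (logSmooth_gen hτ hm Δ q h)
  · obtain ⟨F, _, _, ρ, h4, h5⟩ := exists_residue p
    obtain ⟨k, hk⟩ := exists_least hA hw hD
    have h6 := klt _ F ρ ((E.loc a).isPoint p) h4 (h5 ▸ h3) A w k (E.g' a)⁻¹ hA hw (by
      rintro r ⟨s, hs, h6⟩
      have h8 := h1 ⟨_, h6⟩
      rwa [map_mul, h2 s hs, one_mul] at h8) hk (E.locEq a (loc_locAt p))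
    obtain ⟨u, u1, u2, u3⟩ := hk.1
    rw [Units.val_inv_eq_inv_val, ord_inv] at h6
    have h7 : (0 : ℚ) < m := Nat.cast_pos.2 hm
    have h8 : ((m : ℤ) * -k : ℚ) < (m : ℤ) + ord w (E.g' a : K) := by
      have h9 := mul_lt_mul_of_pos_left h6 h7
      rw [mul_sub, mul_div_cancel₀ _ h7.ne'] at h9
      push_cast at h9 ⊢
      linarith
    have h9 : (m : ℤ) * -k < m + ord w (E.g' a : K) := by exact_mod_cast h8
    refine VK.ld_of_klt (by simpa using hτ.lift_cardinalMk_eq_trdeg.symm) D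
      (fun c => hw.2.1 _ (A.algebraMap_mem c)) hw.1 u1 u2 ?_
    change exp (-(m : ℤ)) * w (E.g' a : K) < w (jac D u) ^ m
    rw [(ord_eq_iff w u2 _).1 u3, (ord_eq_iff w (E.g' a).ne_zero _).1 rfl, ← exp_nsmul, ← exp_add,
      exp_lt_exp, nsmul_eq_mul]
    linarith

end Pool.Agent.Lib.MP_bc213e_ag.OW
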