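import Pool.Agent.Lib.MP_bc213e_ag.KL.G.Su
import Pool.Agent.Lib.MP_bc213e_ag.KL.T.Main
import Pool.Agent.Lib.MP_bc213e_ag.OW.F.Poly
import Pool.Agent.Lib.MP_bc213e_ag.OW.H.Link

/-! The theorem on the Euler characteristic of order `ν` for klt pairs. -/

namespace Pool.Agent.Lib.MP_bc213e_ag.OW

open Pool.Agent.Lib.MP_bc213e_ag.Hyp Pool.Agent.Lib.MP_bc213e_ag.KBB WithZero Filter

theorem todd_klt {K : Type} [Field K] [Algebra ℂ K] {N n m ν : ℕ} (hm : 0 < m)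
    (x : Fin (N + 1) → Kˣ)
    (normal : ∀ i, IsFractionRing (chart x i) K ∧ IsIntegrallyClosed (chart x i))
    (τ : Fin n → K) (hτ : IsTranscendenceBasis ℂ τ) (D : Fin n → Derivation ℂ K K)
    (hD : ∀ a b, D a (τ b) = if a = b then 1 else 0)
    (KX : Prm x →₀ ℤ) (canonical : IsCanonical D KX) (Δ : Prm x →₀ ℚ) (effective : 0 ≤ Δ)
    (L : Prm x →₀ ℤ) (hL : ∀ w, (L w : ℚ) = m * (KX w + Δ w))
    (cartier : IsCartier L) (nef : IsNef L)
    (klt : ∀ (O : Subalgebra ℂ K) (F : Type) [Field F] [Algebra ℂ F] (ρ : O →ₐ[ℂ] F),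
      IsPoint x O → Function.Surjective ρ → (ν : Cardinal) < Algebra.trdeg ℂ F →
        KltAt D m L O)
    (H : Prm x →₀ ℤ)
    (hyperplane : ∀ i (w : Prm x), PrimeDiv (chart x i) w.1 → H w = ord w.1 ((x 0 : K) / x i))
    (numdim : ∀ i j, ν < i → i + j = n → inter L H i j = 0)
    (c : ℚ) (hc : 0 < c)
    (euler : ∃ᶠ t : ℕ in atTop, c * (t : ℚ) ^ ν ≤ |(chi (Sect (t • L)) : ℚ)|) :
    ∃ δ : ℚ, 0 < δ ∧ ∃ᶠ t : ℕ in atTop,
      δ * (t : ℚ) ^ ν ≤ Module.finrank ℂ (Sect (t • L) ∅) := by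
  obtain ⟨κ, _, ⟨E⟩⟩ := exists_emb normal cartier
  obtain ⟨p, h0, h1⟩ := E.hilb normal
  have hnef := E.nef (fun i => (normal i).1) nef
  have : Nonempty κ := ⟨E.k₀⟩
  obtain ⟨P, a₀, hP⟩ := uniform E.x' E.g' E.cart hnef
  have hP' : ∀ t a : ℕ, a₀ ≤ a → (Module.finrank ℂ (Tw (t • L) (E.k * a)) : ℚ) =
      MvPolynomial.eval ![(t : ℚ), (a : ℚ)] P := fun t a ha => by
    rw [← E.finrank_eq]
    exact (hP t a ha).2
  have tr : Algebra.trdeg ℂ K = n := by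
    have h := hτ.lift_cardinalMk_eq_trdeg
    simpa using h.symm
  have h3 : ∀ t : ℕ, (chi (Sect (t • L)) : ℚ) = MvPolynomial.eval ![(t : ℚ), 0] P := fun t => by
    rw [← h0, KBF.link (h := fun t a => Module.finrank ℂ (Tw (t • L) (E.k * a))) hP' h1 t,
      KBF.spec_eval]
  obtain ⟨Q, q1, q2, q3⟩ := exists_two P (ν := ν) (a₀ := 0)
    (fun a _ => td_bound (E.td normal hnef tr hyperplane numdim hP') a) hc
    (by simpa only [h3] using euler)
  obtain ⟨S, s1, s2, s3, s4⟩ := E.exists_su hm normal hτ hD canonical effective hL nef klt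
  have h2 := S.growthk s3 s4 q2 q3 fun t => by
    filter_upwards [eventually_ge_atTop a₀] with a ha
    rw [s1, s2, E.finrank_eq, hP' t a ha, ← q1]
  rw [s1, s2] at h2
  have h9 : ∀ t : ℕ, Module.finrank ℂ (Tw (t • L) (E.k * 0)) =
      Module.finrank ℂ (Sect (t • L) ∅) := fun t => by rw [mul_zero, tw_zero]
  simpa only [E.finrank_eq, h9] using h2

end Pool.Agent.Lib.MP_bc213e_ag.OW
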